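import Pool.Agent.Helper37.Arb.Goals

/-!
Packet ARB-RTURN (project ARB, MP_2b0227_gt).
-/

namespace Pool.Agent.Helper14.Arb

open Pool.Agent.Helper36.SC Pool.Agent.Helper37.Arb Polynomial

/-- the reflected diagram -/
def turnD {V : Type} [DecidableEq V] (D : AltDiagram V) (l r : V) : AltDiagram V :=
  ⟨fun v => !D.pos v, D.overNext, (Equiv.swap l r).trans D.underNext⟩

theorem fwd_turn {V : Type} [DecidableEq V] (D : AltDiagram V) (l r v : V) {x : ℝ} (hx : x ≠ 0) :
    fwd (turnD D l r) x v = x * fwd D x⁻¹ v := by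
  unfold fwd
  by_cases h : D.pos v = true
  · have h' : ¬ ((turnD D l r).pos v = true) := by simp [turnD, h]
    rw [if_neg h', if_pos h, mul_one]
  · have h' : (turnD D l r).pos v = true := by simpa [turnD] using h
    rw [if_pos h', if_neg h, mul_inv_cancel₀ hx]

theorem bwd_turn {V : Type} [DecidableEq V] (D : AltDiagram V) (l r v : V) {x : ℝ} (hx : x ≠ 0) :
    bwd (turnD D l r) x v = x * bwd D x⁻¹ v := by
  unfold bwd
  by_cases h : D.pos v = true
  · have h' : ¬ ((turnD D l r).pos v = true) := by simp [turnD, h]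
    rw [if_neg h', if_pos h, mul_inv_cancel₀ hx]
  · have h' : (turnD D l r).pos v = true := by simpa [turnD] using h
    rw [if_pos h', if_neg h, mul_one]

theorem mat_turn {V : Type} [DecidableEq V] (D : AltDiagram V) (l r : V) (hlr : l ≠ r)
    {x : ℝ} (hx : x ≠ 0) :
    lap (turnD D l r) x + stepU (turnD D l r) x l + stepU (turnD D l r) x r
      = x • (lap D x⁻¹ + stepU D x⁻¹ l + stepU D x⁻¹ r) := by
  have hUl : (turnD D l r).underNext l = D.underNext r := by simp [turnD]
  have hUr : (turnD D l r).underNext r = D.underNext l := by simp [turnD]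
  have hU : ∀ v, v ≠ l → v ≠ r → (turnD D l r).underNext v = D.underNext v := by
    intro v h1 h2
    simp [turnD, Equiv.swap_apply_of_ne_of_ne h1 h2]
  have hO : (turnD D l r).overNext = D.overNext := rfl
  have h1x : x * (1 + x⁻¹) = 1 + x := by field_simp; ring
  ext v w
  simp only [Matrix.add_apply, Matrix.smul_apply, smul_eq_mul, lap, stepU, Matrix.of_apply,
    fwd_turn D l r _ hx, bwd_turn D l r _ hx, hO, Matrix.single_apply]
  by_cases hvl : v = l
  · subst hvl
    have hrv : ¬ (r = v) := fun h => hlr h.symm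
    simp only [hUl, hUr, hrv, false_and, if_false, true_and]
    rw [← h1x]
    have e1 : ∀ (p q : V), (if p = q then (x * fwd D x⁻¹ v) else 0)
        = x * fwd D x⁻¹ v * (if q = p then 1 else 0) := by
      intro p q
      by_cases h : p = q
      · simp [h]
      · have h' : ¬ (q = p) := fun h2 => h h2.symm
        simp [h, h']
    have e2 : ∀ (p q : V), (if p = q then (fwd D x⁻¹ v) else 0)
        = fwd D x⁻¹ v * (if q = p then 1 else 0) := by
      intro p q
      by_cases h : p = q
      · simp [h]
      · have h' : ¬ (q = p) := fun h2 => h h2.symm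
        simp [h, h']
    rw [e1, e2]
    ring
  · by_cases hvr : v = r
    · subst hvr
      have hlv : ¬ (l = v) := hlr
      simp only [hUl, hUr, hlv, false_and, if_false, true_and]
      rw [← h1x]
      have e1 : ∀ (p q : V), (if p = q then (x * fwd D x⁻¹ v) else 0)
          = x * fwd D x⁻¹ v * (if q = p then 1 else 0) := by
        intro p q
        by_cases h : p = q
        · simp [h]
        · have h' : ¬ (q = p) := fun h2 => h h2.symm
          simp [h, h']
      have e2 : ∀ (p q : V), (if p = q then (fwd D x⁻¹ v) else 0)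
          = fwd D x⁻¹ v * (if q = p then 1 else 0) := by
        intro p q
        by_cases h : p = q
        · simp [h]
        · have h' : ¬ (q = p) := fun h2 => h h2.symm
          simp [h, h']
      rw [e1, e2]
      ring
    · have hlv : ¬ (l = v) := fun h => hvl h.symm
      have hrv : ¬ (r = v) := fun h => hvr h.symm
      simp only [hU v hvl hvr, hlv, hrv, false_and, if_false]
      rw [← h1x]
      ring

/-- the response of the reflected tangle -/
theorem respTurn : GoalRespTurn := by
  intro P j N a b hpos hsym hR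
  obtain ⟨hlr, hx⟩ := hR
  refine ⟨(Fintype.card P.diag.V : ℤ) - j - N - 1, hlr, ?_⟩
  intro x hx0
  have hxi : 0 < x⁻¹ := inv_pos.mpr hx0
  have hxne : x ≠ 0 := hx0.ne'
  obtain ⟨hdet, hsol⟩ := hx x⁻¹ hxi
  obtain ⟨hs1, hs2⟩ := hsym x hx0
  -- the matrices
  have hmat : openMat false (Tangle.turn P).diag x = x • openMat false P.diag x⁻¹ :=
    mat_turn P.diag.D P.diag.l P.diag.r hlr hxne
  have hxN : (x : ℝ) ^ N ≠ 0 := zpow_ne_zero _ hxne
  have hab : a x⁻¹ + x⁻¹ * b x⁻¹ = (x ^ N)⁻¹ * (a x + b x) := by
    have h1 : a x⁻¹ = (x ^ N)⁻¹ * a x := by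
      rw [← hs1, inv_mul_cancel_left₀ hxN]
    have h2 : b x⁻¹ = (x ^ N)⁻¹ * (x * b x) := by
      rw [← hs2, inv_mul_cancel_left₀ hxN]
    rw [h1, h2]
    field_simp
  have ha' : a x⁻¹ = (x ^ N)⁻¹ * a x := by
    rw [← hs1, inv_mul_cancel_left₀ hxN]
  have hb' : x⁻¹ * b x⁻¹ = (x ^ N)⁻¹ * b x := by
    have h2 : b x⁻¹ = (x ^ N)⁻¹ * (x * b x) := by
      rw [← hs2, inv_mul_cancel_left₀ hxN]
    rw [h2]
    field_simp
  refine ⟨?_, ?_⟩
  · rw [hmat]
    have h5 : (x • openMat false P.diag x⁻¹).det
        = x ^ (Fintype.card P.diag.V) * (openMat false P.diag x⁻¹).det := Matrix.det_smul _ _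
    have h6 : x ^ ((Fintype.card P.diag.V : ℤ) - j - N - 1) * (x * b x + x * a x)
        = x ^ (Fintype.card P.diag.V) * ((x⁻¹) ^ j * ((x ^ N)⁻¹ * (a x + b x))) := by
      rw [zpow_sub₀ hxne, zpow_sub₀ hxne, zpow_sub₀ hxne, zpow_natCast, zpow_one, inv_zpow]
      have hxj : (x : ℝ) ^ j ≠ 0 := zpow_ne_zero _ hxne
      field_simp
      ring
    rw [hdet, hab] at h5
    show (x • openMat false P.diag x⁻¹).det = _
    rw [h5, h6]
  · intro s t
    obtain ⟨h, hh, hl, hr⟩ := hsol s t
    refine ⟨h, ?_, ?_, ?_⟩
    · rw [hmat]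
      show (x • openMat false P.diag x⁻¹).mulVec h = Pi.single P.diag.l (fwd (turnD P.diag.D
        P.diag.l P.diag.r) x P.diag.l * s) + Pi.single P.diag.r (fwd (turnD P.diag.D P.diag.l
        P.diag.r) x P.diag.r * t)
      rw [Matrix.smul_mulVec, hh, fwd_turn _ _ _ _ hxne, fwd_turn _ _ _ _ hxne, smul_add,
        ← Pi.single_smul, ← Pi.single_smul]
      simp only [smul_eq_mul, mul_assoc]
    · have hU : (Tangle.turn P).diag.D.underNext (Tangle.turn P).diag.l
          = P.diag.D.underNext P.diag.r := by
        show P.diag.D.underNext (Equiv.swap P.diag.l P.diag.r P.diag.l) = _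
        rw [Equiv.swap_apply_left]
      rw [hU]
      rw [hab, ha', hb'] at hr
      have h7 : (a x + b x) * h (P.diag.D.underNext P.diag.r) = b x * s + a x * t := by
        have h8 := congrArg (fun y => x ^ N * y) hr
        have h9 : x ^ N * ((x ^ N)⁻¹ * (a x + b x) * h (P.diag.D.underNext P.diag.r))
            = (a x + b x) * h (P.diag.D.underNext P.diag.r) := by
          field_simp
        have h10 : x ^ N * ((x ^ N)⁻¹ * b x * s + (x ^ N)⁻¹ * a x * t) = b x * s + a x * t := by
          field_simp
        rw [h9, h10] at h8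
        exact h8
      show (x * b x + x * a x) * h (P.diag.D.underNext P.diag.r) = x * b x * s + x * a x * t
      linear_combination x * h7
    · have hU : (Tangle.turn P).diag.D.underNext (Tangle.turn P).diag.r
          = P.diag.D.underNext P.diag.l := by
        show P.diag.D.underNext (Equiv.swap P.diag.l P.diag.r P.diag.r) = _
        rw [Equiv.swap_apply_right]
      rw [hU]
      rw [hab, ha', hb'] at hl
      have h7 : (a x + b x) * h (P.diag.D.underNext P.diag.l) = a x * s + b x * t := by
        have h8 := congrArg (fun y => x ^ N * y) hl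
        have h9 : x ^ N * ((x ^ N)⁻¹ * (a x + b x) * h (P.diag.D.underNext P.diag.l))
            = (a x + b x) * h (P.diag.D.underNext P.diag.l) := by
          field_simp
        have h10 : x ^ N * ((x ^ N)⁻¹ * a x * s + (x ^ N)⁻¹ * b x * t) = a x * s + b x * t := by
          field_simp
        rw [h9, h10] at h8
        exact h8
      show (x * b x + x * a x) * h (P.diag.D.underNext P.diag.l) = x * a x * s + x * b x * t
      linear_combination x * h7

end Pool.Agent.Helper14.Arb
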